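import Pool.Agent.H41.CP.GDefs

set_option autoImplicit false

/-!
The digraph lemma, first part: closed sets and Hall sets.
-/

namespace Pool.Agent.H387.CPG

open Finset

variable {V : Type} [Fintype V] [DecidableEq V]

/-- out-closed sets -/
def OC (arc : V → V → Prop) (B : Finset V) : Prop := ∀ v ∈ B, ∀ u, arc v u → u ∈ B

/-- no good permutation moves two elements of `X` -/
def Star (arc : V → V → Prop) (X : Finset V) : Prop :=
  ¬ ∃ c : Equiv.Perm V, (∀ v, c v = v ∨ arc v (c v)) ∧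
    ∃ x ∈ X, ∃ y ∈ X, x ≠ y ∧ c x ≠ x ∧ c y ≠ y

omit [Fintype V] [DecidableEq V] in
theorem inv_good {arc : V → V → Prop} {c : Equiv.Perm V}
    (h : ∀ v, c v = v ∨ arc (c v) v) (v : V) : c⁻¹ v = v ∨ arc v (c⁻¹ v) := by
  have e : c (c⁻¹ v) = v := Equiv.apply_symm_apply c v
  rcases h (c⁻¹ v) with h1 | h1
  · left
    rw [e] at h1
    exact h1.symm
  · right
    rwa [e] at h1

omit [Fintype V] [DecidableEq V] in
theorem inv_move {c : Equiv.Perm V} {v : V} (h : c v ≠ v) : c⁻¹ v ≠ v := by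
  intro h1
  apply h
  have e : c (c⁻¹ v) = v := Equiv.apply_symm_apply c v
  rw [h1] at e
  exact e

omit [Fintype V] [DecidableEq V] in
theorem star_rev {arc : V → V → Prop} {X : Finset V} (h : Star arc X) :
    Star (fun u v => arc v u) X := by
  rintro ⟨c, hc, x, hx, y, hy, hxy, h1, h2⟩
  exact h ⟨c⁻¹, inv_good hc, x, hx, y, hy, hxy, inv_move h1, inv_move h2⟩

theorem exists_perm (t : V → Finset V) (h : ∀ s : Finset V, s.card ≤ (s.biUnion t).card) :
    ∃ c : Equiv.Perm V, ∀ v, c v ∈ t v := by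
  obtain ⟨f, hf, hft⟩ := (Finset.all_card_le_biUnion_card_iff_exists_injective t).1 h
  exact ⟨Equiv.ofBijective f (Finite.injective_iff_bijective.1 hf), fun v => hft v⟩

theorem exists_min (P : Finset V → Prop) (B : Finset V) (hB : P B) :
    ∃ O, P O ∧ O ⊆ B ∧ ∀ O', P O' → O' ⊆ O → O' = O := by
  classical
  obtain ⟨O, hO, hmin⟩ := Finset.exists_min_image (univ.filter fun O => P O ∧ O ⊆ B) card
    ⟨B, by simp [hB]⟩
  simp only [mem_filter, mem_univ, true_and] at hO hmin
  refine ⟨O, hO.1, hO.2, fun O' h1 h2 => ?_⟩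
  exact Finset.eq_of_subset_of_card_le h2 (hmin O' ⟨h1, h2.trans hO.2⟩)

/-- a good permutation supported in a minimal closed set and moving a given element -/
theorem move (arc : V → V → Prop) (O : Finset V) (hO : OC arc O)
    (hmin : ∀ O', (O'.Nonempty ∧ OC arc O') → O' ⊆ O → O' = O) (s : V) (hs : s ∈ O)
    (hss : ¬ arc s s) (hsu : ∃ u, arc s u) :
    ∃ c : Equiv.Perm V, (∀ v, c v = v ∨ arc v (c v)) ∧ (∀ v, v ∉ O → c v = v) ∧ c s ≠ s := by
  classical
  obtain ⟨t, ht⟩ : ∃ t : V → Finset V, ∀ v, t v = if v ∈ O then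
    univ.filter (fun u => arc v u ∨ (u = v ∧ v ≠ s)) else {v} := ⟨_, fun v => rfl⟩
  have ht1 : ∀ v, v ≠ s → v ∈ t v := by
    intro v hv
    rw [ht]
    split_ifs with h
    · simp [hv]
    · simp
  have ht2 : ∀ v ∈ O, ∀ u, arc v u → u ∈ t v := by
    intro v hv u hu
    rw [ht, if_pos hv]
    simp [hu]
  have hall : ∀ A : Finset V, A.card ≤ (A.biUnion t).card := by
    intro A
    by_contra hlt
    rw [not_le] at hlt
    have h1 : A.erase s ⊆ A.biUnion t := fun v hv =>
      mem_biUnion.2 ⟨v, mem_of_mem_erase hv, ht1 v (ne_of_mem_erase hv)⟩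
    have hsA : s ∈ A := by
      by_contra hsA
      rw [erase_eq_of_notMem hsA] at h1
      have := card_le_card h1
      omega
    have h2 : A.erase s = A.biUnion t :=
      eq_of_subset_of_card_le h1 (by rw [card_erase_of_mem hsA]; omega)
    have h3 : ∀ v ∈ A, v ∈ O → ∀ u, arc v u → u ∈ (A.erase s) ∩ O := by
      intro v hvA hvO u hu
      refine mem_inter.2 ⟨?_, hO v hvO u hu⟩
      rw [h2]
      exact mem_biUnion.2 ⟨v, hvA, ht2 v hvO u hu⟩
    obtain ⟨u, hu⟩ := hsu
    have h4 := hmin ((A.erase s) ∩ O) ⟨⟨u, h3 s hsA hs u hu⟩, fun v hv w hw =>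
      h3 v (mem_of_mem_erase (mem_inter.1 hv).1) (mem_inter.1 hv).2 w hw⟩ inter_subset_right
    have h5 : s ∈ (A.erase s) ∩ O := by rw [h4]; exact hs
    exact (notMem_erase s A) (mem_inter.1 h5).1
  obtain ⟨c, hc⟩ := exists_perm t hall
  refine ⟨c, fun v => ?_, fun v hv => ?_, fun h => ?_⟩
  · have h1 := hc v
    rw [ht] at h1
    split_ifs at h1 with h
    · rcases (mem_filter.1 h1).2 with h2 | h2
      · exact Or.inr h2
      · exact Or.inl h2.1
    · exact Or.inl (mem_singleton.1 h1)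
  · have h1 := hc v
    rw [ht, if_neg hv] at h1
    exact mem_singleton.1 h1
  · have h1 := hc s
    rw [ht, if_pos hs, h] at h1
    rcases (mem_filter.1 h1).2 with h2 | h2
    · exact hss h2
    · exact h2.2 rfl

/-- a digraph with positive out-degrees in `Z` contains a cycle in `Z` -/
theorem cycle (arc : V → V → Prop) (hirr : ∀ v, ¬ arc v v) (Z : Finset V) (hZ : Z.Nonempty)
    (h : ∀ z ∈ Z, ∃ u ∈ Z, arc z u) :
    ∃ c : Equiv.Perm V, (∀ v, c v = v ∨ arc v (c v)) ∧ ∃ x ∈ Z, ∃ y ∈ Z, x ≠ y ∧ c x ≠ x ∧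
      c y ≠ y := by
  obtain ⟨O, ⟨⟨s, hs⟩, hO⟩, hOZ, hmin⟩ := exists_min
    (fun O => O.Nonempty ∧ OC (fun v u => v ∈ Z ∧ u ∈ Z ∧ arc v u) O) Z
    ⟨hZ, fun v _ u hu => hu.2.1⟩
  obtain ⟨u, hu, hsu⟩ := h s (hOZ hs)
  obtain ⟨c, h1, h2, h3⟩ := move (fun v u => v ∈ Z ∧ u ∈ Z ∧ arc v u) O hO hmin s hs
    (fun h => hirr s h.2.2) ⟨u, hOZ hs, hu, hsu⟩
  have h4 : c (c s) ≠ c s := fun h => h3 (c.injective h)
  refine ⟨c, fun v => (h1 v).imp id fun h => h.2.2, s, hOZ hs, c s, ?_, fun h => h3 h.symm, h3, h4⟩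
  by_contra h5
  exact h4 (h2 _ fun h => h5 (hOZ h))

theorem card_out {r : ℕ} {arc : V → V → Prop} [DecidableRel arc] (hirr : ∀ v, ¬ arc v v)
    (hout : ∀ v, r - 2 ≤ (univ.filter fun u => arc v u).card) {O : Finset V} (hO : OC arc O)
    (hne : O.Nonempty) : r - 2 + 1 ≤ O.card := by
  obtain ⟨s, hs⟩ := hne
  have h1 : (univ.filter fun u => arc s u) ⊆ O.erase s := by
    intro u hu
    have h2 := (mem_filter.1 hu).2
    refine mem_erase.2 ⟨?_, hO s hs u h2⟩
    rintro rfl
    exact hirr _ h2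
  have h2 := card_le_card h1
  rw [card_erase_of_mem hs] at h2
  have h3 := hout s
  have h4 : 0 < O.card := card_pos.2 ⟨s, hs⟩
  omega

/-- the case where `X` does not meet a large set disjoint from a closed set -/
theorem one_side {r : ℕ} (hr : 4 ≤ r) {arc : V → V → Prop} [DecidableRel arc] {X : Finset V}
    (hV : Fintype.card V = 2 * r) (hX : X.card = r) (hirr : ∀ v, ¬ arc v v)
    (hout : ∀ v, r - 2 ≤ (univ.filter fun u => arc v u).card) (hst : Star arc X)
    {O I : Finset V} (hO : OC arc O) (hne : O.Nonempty) (hOI : Disjoint O I)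
    (hI : r - 2 + 1 ≤ I.card) (hXI : Disjoint X I) : False := by
  have h1 : (Xᶜ \ I).card ≤ 1 := by
    have h2 : I ⊆ Xᶜ := fun v hv => mem_compl.2 fun h => (disjoint_left.1 hXI) h hv
    rw [card_sdiff_of_subset h2, card_compl, hV, hX]
    omega
  have h2 := card_out hirr hout hO hne
  have h3 : O \ X ⊆ Xᶜ \ I := by
    intro v hv
    obtain ⟨h4, h5⟩ := mem_sdiff.1 hv
    exact mem_sdiff.2 ⟨mem_compl.2 h5, fun h => (disjoint_left.1 hOI) h4 h⟩
  have h4 : (O \ X).card ≤ 1 := (card_le_card h3).trans h1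
  have h5 : (O ∩ X).Nonempty := by
    rw [← card_pos]
    have := card_sdiff_add_card_inter O X
    omega
  obtain ⟨c, hc, x, hx, y, hy, hxy⟩ := cycle arc hirr (O ∩ X) h5 (by
    intro z hz
    by_contra hcon
    push Not at hcon
    have h6 : (univ.filter fun u => arc z u) ⊆ O \ X := by
      intro u hu
      have h7 := (mem_filter.1 hu).2
      have h8 := hO z (mem_inter.1 hz).1 u h7
      exact mem_sdiff.2 ⟨h8, fun h9 => hcon u (mem_inter.2 ⟨h8, h9⟩) h7⟩
    have h7 := card_le_card h6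
    have h8 := hout z
    omega)
  exact hst ⟨c, hc, x, (mem_inter.1 hx).2, y, (mem_inter.1 hy).2, hxy⟩

/-- **(A)** there is no proper nonempty closed set -/
theorem closed_none {r : ℕ} (hr : 4 ≤ r) {arc : V → V → Prop} [DecidableRel arc] {X : Finset V}
    (hV : Fintype.card V = 2 * r) (hX : X.card = r) (hirr : ∀ v, ¬ arc v v)
    (hout : ∀ v, r - 2 ≤ (univ.filter fun u => arc v u).card)
    (hin : ∀ v, r - 2 ≤ (univ.filter fun u => arc u v).card)
    (hst : ¬ ∃ c : Equiv.Perm V, (∀ v, c v = v ∨ arc v (c v)) ∧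
      ∃ x ∈ X, ∃ y ∈ X, x ≠ y ∧ c x ≠ x ∧ c y ≠ y)
    (B : Finset V) (hB : B.Nonempty) (hcl : ∀ v ∈ B, ∀ u, arc v u → u ∈ B) : B = univ := by
  by_contra hBu
  have hBc : Bᶜ.Nonempty := by
    rw [nonempty_iff_ne_empty, Ne, compl_eq_empty_iff]
    exact hBu
  obtain ⟨O, ⟨hOn, hO⟩, hOB, hOm⟩ := exists_min (fun O => O.Nonempty ∧ OC arc O) B ⟨hB, hcl⟩
  obtain ⟨I, ⟨hIn, hI⟩, hIB, hIm⟩ := exists_min
    (fun O => O.Nonempty ∧ OC (fun u v => arc v u) O) Bᶜ ⟨hBc, by
      intro v hv u hu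
      rw [mem_compl] at hv ⊢
      exact fun h => hv (hcl u h v hu)⟩
  have hOI : Disjoint O I := disjoint_left.2 fun v h1 h2 => (mem_compl.1 (hIB h2)) (hOB h1)
  have hOc := card_out hirr hout hO hOn
  have hIc := card_out (r := r) (arc := fun u v => arc v u) hirr hin hI hIn
  have hex : ∀ v, ∃ u, arc v u := by
    intro v
    have h1 := hout v
    have h2 : 0 < (univ.filter fun u => arc v u).card := by omega
    obtain ⟨u, hu⟩ := card_pos.1 h2
    exact ⟨u, (mem_filter.1 hu).2⟩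
  have hex' : ∀ v, ∃ u, arc u v := by
    intro v
    have h1 := hin v
    have h2 : 0 < (univ.filter fun u => arc u v).card := by omega
    obtain ⟨u, hu⟩ := card_pos.1 h2
    exact ⟨u, (mem_filter.1 hu).2⟩
  by_cases hXI : Disjoint X I
  · exact one_side hr hV hX hirr hout hst hO hOn hOI hIc hXI
  by_cases hXO : Disjoint X O
  · exact one_side (arc := fun u v => arc v u) hr hV hX hirr hin (star_rev hst) hI hIn
      hOI.symm hOc hXO
  rw [not_disjoint_iff] at hXI hXO
  obtain ⟨y, hyX, hyI⟩ := hXI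
  obtain ⟨x, hxX, hxO⟩ := hXO
  obtain ⟨c₁, a1, a2, a3⟩ := move arc O hO hOm x hxO (hirr x) (hex x)
  obtain ⟨c₂', b1, b2, b3⟩ := move (fun u v => arc v u) I hI hIm y hyI (hirr y) (hex' y)
  obtain ⟨c₂, hc₂⟩ : ∃ c₂ : Equiv.Perm V, c₂ = c₂'⁻¹ := ⟨_, rfl⟩
  have d1 : ∀ v, c₂ v = v ∨ arc v (c₂ v) := by
    rw [hc₂]
    exact inv_good b1
  have d2 : ∀ v, v ∉ I → c₂ v = v := by
    intro v hv
    by_contra h
    rw [hc₂] at h
    have h2 := inv_move h
    rw [inv_inv] at h2
    exact h2 (b2 v hv)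
  have d3 : c₂ y ≠ y := by
    rw [hc₂]
    exact inv_move b3
  have e1 : ∀ v ∈ I, c₁ (c₂ v) = c₂ v := by
    intro v hv
    apply a2
    intro h
    have h1 : c₂ v ∉ I := fun h2 => (disjoint_left.1 hOI) h h2
    have h2 := c₂.injective (d2 _ h1)
    rw [h2] at h1
    exact h1 hv
  have e2 : ∀ v, v ∉ I → c₁ (c₂ v) = c₁ v := fun v hv => by rw [d2 v hv]
  have hxI : x ∉ I := fun h => (disjoint_left.1 hOI) hxO h
  refine hst ⟨c₁ * c₂, fun v => ?_, x, hxX, y, hyX, ?_, ?_, ?_⟩
  · rw [Equiv.Perm.mul_apply]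
    by_cases hv : v ∈ I
    · rw [e1 v hv]
      exact d1 v
    · rw [e2 v hv]
      exact a1 v
  · rintro rfl
    exact hxI hyI
  · rw [Equiv.Perm.mul_apply, e2 x hxI]
    exact a3
  · rw [Equiv.Perm.mul_apply, e1 y hyI]
    exact d3

/-- **(B)** the Hall sets -/
theorem hall_set {r : ℕ} (hr : 4 ≤ r) {arc : V → V → Prop} [DecidableRel arc] {X : Finset V}
    (hV : Fintype.card V = 2 * r) (hX : X.card = r) (hirr : ∀ v, ¬ arc v v)
    (hout : ∀ v, r - 2 ≤ (univ.filter fun u => arc v u).card)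
    (hin : ∀ v, r - 2 ≤ (univ.filter fun u => arc u v).card)
    (hst : ¬ ∃ c : Equiv.Perm V, (∀ v, c v = v ∨ arc v (c v)) ∧
      ∃ x ∈ X, ∃ y ∈ X, x ≠ y ∧ c x ≠ x ∧ c y ≠ y)
    (x y : V) (hx : x ∈ X) (hy : y ∈ X) (hxy : x ≠ y) :
    ∃ (A : Finset V) (z : V), x ∈ A ∧ y ∈ A ∧ z ∉ A ∧ (A.card = r ∨ A.card = r + 1) ∧
      ∀ a ∈ A, ∀ u, arc a u → u = z ∨ (u ∈ A ∧ u ≠ x ∧ u ≠ y) := by
  classical
  obtain ⟨t, ht⟩ : ∃ t : V → Finset V, ∀ v, t v =
    univ.filter (fun u => arc v u ∨ (u = v ∧ v ≠ x ∧ v ≠ y)) := ⟨_, fun v => rfl⟩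
  have hnot : ¬ ∀ A : Finset V, A.card ≤ (A.biUnion t).card := by
    intro hall
    obtain ⟨c, hc⟩ := exists_perm t hall
    have h1 : ∀ v, arc v (c v) ∨ (c v = v ∧ v ≠ x ∧ v ≠ y) := by
      intro v
      have := hc v
      rw [ht] at this
      exact (mem_filter.1 this).2
    refine hst ⟨c, fun v => ?_, x, hx, y, hy, hxy, fun h => ?_, fun h => ?_⟩
    · rcases h1 v with h2 | h2
      · exact Or.inr h2
      · exact Or.inl h2.1
    · rcases h1 x with h2 | h2
      · rw [h] at h2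
        exact hirr x h2
      · exact h2.2.1 rfl
    · rcases h1 y with h2 | h2
      · rw [h] at h2
        exact hirr y h2
      · exact h2.2.2 rfl
  push Not at hnot
  obtain ⟨A, hA⟩ := hnot
  have harc : ∀ a ∈ A, ∀ u, arc a u → u ∈ A.biUnion t := by
    intro a ha u hu
    refine mem_biUnion.2 ⟨a, ha, ?_⟩
    rw [ht]
    simp [hu]
  obtain ⟨K, hK⟩ : ∃ K : Finset V, K = (A.erase x).erase y := ⟨_, rfl⟩
  have hKm : ∀ v, v ∈ K ↔ v ≠ y ∧ v ≠ x ∧ v ∈ A := by
    intro v
    rw [hK, mem_erase, mem_erase]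
  have hKt : K ⊆ A.biUnion t := by
    intro v hv
    obtain ⟨h1, h2, h3⟩ := (hKm v).1 hv
    refine mem_biUnion.2 ⟨v, h3, ?_⟩
    rw [ht]
    simp [h1, h2]
  -- `t(A)` is not contained in `A`
  obtain ⟨z, hzt, hzA⟩ : ∃ z, z ∈ A.biUnion t ∧ z ∉ A := by
    by_contra hcon
    push Not at hcon
    have hne : A.Nonempty := by
      rw [← card_pos]
      omega
    have hAu := closed_none hr hV hX hirr hout hin hst A hne fun v hv u hu =>
      hcon u (harc v hv u hu)
    have h1 : A.biUnion t = univ := by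
      rw [eq_univ_iff_forall]
      intro u
      have h2 := hin u
      have h3 : 0 < (univ.filter fun v => arc v u).card := by omega
      obtain ⟨v, hv⟩ := card_pos.1 h3
      exact harc v (by rw [hAu]; exact mem_univ v) u (mem_filter.1 hv).2
    rw [h1] at hA
    have := card_le_univ A
    rw [card_univ] at hA
    omega
  have hzK : z ∉ K := fun h => hzA ((hKm z).1 h).2.2
  have h1 : insert z K ⊆ A.biUnion t := insert_subset hzt hKt
  have h2 : K.card + 1 ≤ (A.biUnion t).card := by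
    have := card_le_card h1
    rwa [card_insert_of_notMem hzK] at this
  have hxA : x ∈ A := by
    by_contra hxA
    have h3 : K = A.erase y := by rw [hK, erase_eq_of_notMem hxA]
    have h4 := pred_card_le_card_erase (s := A) (a := y)
    rw [← h3] at h4
    omega
  have hyA : y ∈ A := by
    by_contra hyA
    have h3 : K = A.erase x := by
      rw [hK, erase_eq_of_notMem]
      exact fun h => hyA (mem_of_mem_erase h)
    have h4 := pred_card_le_card_erase (s := A) (a := x)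
    rw [← h3] at h4
    omega
  have hKc : K.card = A.card - 2 := by
    rw [hK, card_erase_of_mem (mem_erase.2 ⟨hxy.symm, hyA⟩), card_erase_of_mem hxA]
    omega
  have hA2 : 2 ≤ A.card := by
    have h3 : ({x, y} : Finset V) ⊆ A := by
      intro v hv
      rw [mem_insert, mem_singleton] at hv
      rcases hv with rfl | rfl
      · exact hxA
      · exact hyA
    have h4 := card_le_card h3
    rwa [card_pair hxy] at h4
  have hTA : insert z K = A.biUnion t := by
    refine eq_of_subset_of_card_le h1 ?_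
    rw [card_insert_of_notMem hzK]
    omega
  have hmain : ∀ a ∈ A, ∀ u, arc a u → u = z ∨ (u ∈ A ∧ u ≠ x ∧ u ≠ y) := by
    intro a ha u hu
    have h3 := harc a ha u hu
    rw [← hTA, mem_insert] at h3
    rcases h3 with h3 | h3
    · exact Or.inl h3
    · obtain ⟨h4, h5, h6⟩ := (hKm u).1 h3
      exact Or.inr ⟨h6, h5, h4⟩
  refine ⟨A, z, hxA, hyA, hzA, ?_, hmain⟩
  -- the size of `A`
  have hKn : K.Nonempty := by
    by_contra hKe
    rw [not_nonempty_iff_eq_empty] at hKe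
    have h3 : (univ.filter fun u => arc x u) ⊆ {z} := by
      intro u hu
      have h4 := harc x hxA u (mem_filter.1 hu).2
      rw [← hTA, hKe] at h4
      simpa using h4
    have h4 := card_le_card h3
    rw [card_singleton] at h4
    have h5 := hout x
    omega
  obtain ⟨k, hk⟩ := hKn
  have hlow : r ≤ A.card := by
    have h3 : (univ.filter fun u => arc k u) ⊆ insert z (K.erase k) := by
      intro u hu
      have h4 := (mem_filter.1 hu).2
      have h5 := harc k ((hKm k).1 hk).2.2 u h4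
      rw [← hTA, mem_insert] at h5
      rw [mem_insert, mem_erase]
      rcases h5 with h5 | h5
      · exact Or.inl h5
      · refine Or.inr ⟨?_, h5⟩
        rintro rfl
        exact hirr _ h4
    have h4 := card_le_card h3
    rw [card_insert_of_notMem (fun h => hzK (mem_of_mem_erase h)), card_erase_of_mem hk] at h4
    have h5 := hout k
    have h6 : 0 < K.card := card_pos.2 ⟨k, hk⟩
    omega
  have hAcc : Aᶜ.card = 2 * r - A.card := by rw [card_compl, hV]
  have hinA : ∀ v, v ∉ A → v ≠ z → ∀ u, arc u v → u ∉ A := by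
    intro v hv hvz u hu huA
    rcases hmain u huA v hu with h | h
    · exact hvz h
    · exact hv h.1
  have hc2 : 2 ≤ Aᶜ.card := by
    have h3 : (univ.filter fun u => arc u x) ⊆ Aᶜ := by
      intro u hu
      rw [mem_compl]
      intro huA
      rcases hmain u huA x (mem_filter.1 hu).2 with h | h
      · rw [← h] at hzA
        exact hzA hxA
      · exact h.2.1 rfl
    have h4 := card_le_card h3
    have h5 := hin x
    omega
  have hzc : z ∈ Aᶜ := mem_compl.2 hzA
  obtain ⟨v, hv⟩ : (Aᶜ.erase z).Nonempty := by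
    rw [← card_pos, card_erase_of_mem hzc]
    omega
  obtain ⟨hvz, hvA⟩ := mem_erase.1 hv
  rw [mem_compl] at hvA
  have hup : r - 2 + 1 ≤ Aᶜ.card := by
    have h3 : (univ.filter fun u => arc u v) ⊆ Aᶜ.erase v := by
      intro u hu
      have h4 := (mem_filter.1 hu).2
      refine mem_erase.2 ⟨?_, mem_compl.2 (hinA v hvA hvz u h4)⟩
      rintro rfl
      exact hirr _ h4
    have h4 := card_le_card h3
    rw [card_erase_of_mem (mem_compl.2 hvA)] at h4
    have h5 := hin v
    omega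
  omega

end Pool.Agent.H387.CPG
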